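import Pool.Agent.H91.EQ.SEP

/-!
# Chains of blocks
-/

set_option autoImplicit false

namespace Pool.Agent.H91.EQ

open Pool.Agent.H44.EQ Pool.Agent.H53.GC Pool.Agent.H53.NR Pool.Agent.H68.BP Pool.Agent.H58.SF

/-- Pairs of blocks of the same shape with the same types at each position have the same type. -/
theorem same_of_ZA {V X : Type} [LinearOrder V] {c : V → V → X} {N : X}
    (hsym : ∀ x y, c x y = c y x) (hdiag : ∀ x, c x x = N) {κ : Fin 6 → ℕ}
    {z z' a b : Fin 6 → V} (hz : ZA c N κ z z') (ha : ZA c N κ a b)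
    (h1 : ∀ l, z l < z' l ↔ a l < b l) (h2 : ∀ l, z' l < z l ↔ b l < a l)
    (h3 : ∀ l, c (z l) (z' l) = c (a l) (b l)) :
    SameType c (Sum.elim z z') (Sum.elim a b) := by
  rintro (l | l) (l' | l')
  · show (z l < z l' ↔ a l < a l') ∧ (z l ≤ z l' → c (z l) (z l') = c (a l) (a l'))
    rcases lt_trichotomy (κ l) (κ l') with h | h | h
    · exact ⟨⟨fun _ => (ha.lt l l' h).1, fun _ => (hz.lt l l' h).1⟩, fun _ => by
        rw [(hz.free l l' h).1, (ha.free l l' h).1]⟩
    · rw [← (hz.eq l l' h).1, ← (ha.eq l l' h).1, hdiag, hdiag]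
      exact ⟨⟨fun h => absurd h (lt_irrefl _), fun h => absurd h (lt_irrefl _)⟩, fun _ => rfl⟩
    · exact ⟨⟨fun h' => absurd h' (not_lt_of_gt (hz.lt l' l h).1),
        fun h' => absurd h' (not_lt_of_gt (ha.lt l' l h).1)⟩,
        fun h' => absurd h' (not_le_of_gt (hz.lt l' l h).1)⟩
  · show (z l < z' l' ↔ a l < b l') ∧ (z l ≤ z' l' → c (z l) (z' l') = c (a l) (b l'))
    rcases lt_trichotomy (κ l) (κ l') with h | h | h
    · exact ⟨⟨fun _ => (ha.lt l l' h).2.1, fun _ => (hz.lt l l' h).2.1⟩, fun _ => by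
        rw [(hz.free l l' h).2.1, (ha.free l l' h).2.1]⟩
    · rw [← (hz.eq l l' h).2, ← (ha.eq l l' h).2]
      exact ⟨h1 l, fun _ => h3 l⟩
    · exact ⟨⟨fun h' => absurd h' (not_lt_of_gt (hz.lt l' l h).2.2.1),
        fun h' => absurd h' (not_lt_of_gt (ha.lt l' l h).2.2.1)⟩,
        fun h' => absurd h' (not_le_of_gt (hz.lt l' l h).2.2.1)⟩
  · show (z' l < z l' ↔ b l < a l') ∧ (z' l ≤ z l' → c (z' l) (z l') = c (b l) (a l'))
    rcases lt_trichotomy (κ l) (κ l') with h | h | h
    · exact ⟨⟨fun _ => (ha.lt l l' h).2.2.1, fun _ => (hz.lt l l' h).2.2.1⟩, fun _ => by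
        rw [(hz.free l l' h).2.2.1, (ha.free l l' h).2.2.1]⟩
    · rw [← (hz.eq l l' h).1, ← (ha.eq l l' h).1]
      exact ⟨h2 l, fun _ => by rw [hsym (z' l), h3 l, hsym]⟩
    · exact ⟨⟨fun h' => absurd h' (not_lt_of_gt (hz.lt l' l h).2.1),
        fun h' => absurd h' (not_lt_of_gt (ha.lt l' l h).2.1)⟩,
        fun h' => absurd h' (not_le_of_gt (hz.lt l' l h).2.1)⟩
  · show (z' l < z' l' ↔ b l < b l') ∧ (z' l ≤ z' l' → c (z' l) (z' l') = c (b l) (b l'))
    rcases lt_trichotomy (κ l) (κ l') with h | h | h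
    · exact ⟨⟨fun _ => (ha.lt l l' h).2.2.2, fun _ => (hz.lt l l' h).2.2.2⟩, fun _ => by
        rw [(hz.free l l' h).2.2.2, (ha.free l l' h).2.2.2]⟩
    · rw [← (hz.eq l l' h).2, ← (ha.eq l l' h).2, hdiag, hdiag]
      exact ⟨⟨fun h => absurd h (lt_irrefl _), fun h => absurd h (lt_irrefl _)⟩, fun _ => rfl⟩
    · exact ⟨⟨fun h' => absurd h' (not_lt_of_gt (hz.lt l' l h).2.2.2),
        fun h' => absurd h' (not_lt_of_gt (ha.lt l' l h).2.2.2)⟩,
        fun h' => absurd h' (not_le_of_gt (hz.lt l' l h).2.2.2)⟩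

/-- Names of the points on one level: `0` old, `1` is `m`, `2` is `k`, `3` is `n`. -/
def pos (up : Prop) [Decidable up] (a : Fin 4) : ℕ :=
  if up then ![1, 2, 3, 0] a else ![2, 0, 1, 3] a

theorem pos_inj (up : Prop) [Decidable up] (a b : Fin 4) (h : pos up a = pos up b) : a = b := by
  unfold pos at h
  by_cases hu : up
  · rw [if_pos hu, if_pos hu] at h
    revert h
    revert a b
    decide
  · rw [if_neg hu, if_neg hu] at h
    revert h
    revert a b
    decide

/-- The colours on one level. -/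
def lvl {V X : Type} (c : V → V → X) (N : X) (w w' : V) (t : X) [DecidableEq V] :
    Fin 4 → V → Fin 4 → V → X
  | 0, x, 0, y => c x y
  | 0, x, 1, _ => if x = w then t else N
  | 1, _, 0, y => if y = w then t else N
  | 0, x, 2, _ => if x = w' then t else N
  | 2, _, 0, y => if y = w' then t else N
  | 3, _, 1, _ => t
  | 1, _, 3, _ => t
  | 3, _, 2, _ => t
  | 2, _, 3, _ => t
  | _, _, _, _ => N

theorem lvl_symm {V X : Type} (c : V → V → X) (hsym : ∀ x y, c x y = c y x) (N : X) (w w' : V)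
    (t : X) [DecidableEq V] (a : Fin 4) (x : V) (b : Fin 4) (y : V) :
    lvl c N w w' t a x b y = lvl c N w w' t b y a x := by
  fin_cases a <;> fin_cases b <;> first | rfl | exact hsym _ _

theorem lvl_diag {V X : Type} (c : V → V → X) (N : X) (hdiag : ∀ x, c x x = N) (w w' : V)
    (t : X) [DecidableEq V] (a : Fin 4) (x : V) :
    lvl c N w w' t a x a x = N := by
  fin_cases a <;> first | rfl | exact hdiag _

/-- the side of a point -/
def side (a : Fin 4) : Bool := ![false, true, true, false] a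

/-- An edge which is not between two old points joins the two sides and has the colour `t`. -/
theorem lvl_side {V X : Type} (c : V → V → X) (N : X) (w w' : V)
    (t : X) [DecidableEq V] (a : Fin 4) (x : V) (b : Fin 4) (y : V)
    (h : lvl c N w w' t a x b y ≠ N) (h0 : ¬ (a = 0 ∧ b = 0)) :
    side a ≠ side b ∧ lvl c N w w' t a x b y = t := by
  revert h h0
  fin_cases a <;> fin_cases b <;> intro h h0
  all_goals first
    | exact absurd ⟨rfl, rfl⟩ h0
    | exact absurd rfl h
    | exact ⟨by decide, rfl⟩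
    | skip
  · by_cases hx : x = w
    · exact ⟨by decide, if_pos hx⟩
    · exact absurd (if_neg hx) h
  · by_cases hx : x = w'
    · exact ⟨by decide, if_pos hx⟩
    · exact absurd (if_neg hx) h
  · by_cases hy : y = w
    · exact ⟨by decide, if_pos hy⟩
    · exact absurd (if_neg hy) h
  · by_cases hy : y = w'
    · exact ⟨by decide, if_pos hy⟩
    · exact absurd (if_neg hy) h

/-- A new point has an edge to at most one old point. -/
theorem lvl_old {V X : Type} (c : V → V → X) (N : X) (w w' : V)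
    (t : X) [DecidableEq V] (a : Fin 4) (r x y : V) (ha : a ≠ 0)
    (hx : lvl c N w w' t a r 0 x ≠ N) (hy : lvl c N w w' t a r 0 y ≠ N) : x = y := by
  revert hx hy ha
  fin_cases a <;> intro ha hx hy
  · exact absurd rfl ha
  · by_cases h1 : x = w
    · by_cases h2 : y = w
      · rw [h1, h2]
      · exact absurd (if_neg h2) hy
    · exact absurd (if_neg h1) hx
  · by_cases h1 : x = w'
    · by_cases h2 : y = w'
      · rw [h1, h2]
      · exact absurd (if_neg h2) hy
    · exact absurd (if_neg h1) hx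
  · exact absurd rfl hx

open Classical in
/-- **Row CHN.** -/
theorem pf_CHN (hC : T_CFG) (hE : T_EQV) : T_CHN := by
  intro σ V X _ 𝔸 M c N hS h hh hT κ z z' l₀ hz hzz hl₀ w w' hw hww
  have hsym := hS.sym
  have hdiag := hS.diag
  obtain ⟨a₀⟩ := hS.ne
  -- representatives of the levels
  let lv : ℕ → Fin 6 := fun i => if hi : ∃ l, κ l = i then hi.choose else l₀
  have hlv : ∀ l, κ (lv (κ l)) = κ l := by
    intro l
    have hi : ∃ l', κ l' = κ l := ⟨l, rfl⟩
    show κ (if hi : ∃ l', κ l' = κ l then hi.choose else l₀) = κ l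
    rw [dif_pos hi]
    exact hi.choose_spec
  have ez : ∀ l, z (lv (κ l)) = z l := fun l => (hz.eq _ _ (hlv l)).1
  have ez' : ∀ l, z' (lv (κ l)) = z' l := fun l => (hz.eq _ _ (hlv l)).2
  have ew : ∀ l, w (lv (κ l)) = w l := fun l => (hw.eq _ _ (hlv l)).1
  have ew' : ∀ l, w' (lv (κ l)) = w' l := fun l => (hw.eq _ _ (hlv l)).2
  let up : ℕ → Prop := fun i => z (lv i) < z' (lv i)
  let D : ℕ × Fin 4 × V → ℕ × Fin 4 × V → X := fun p q =>
    if p.1 = q.1 then lvl c N (w (lv p.1)) (w' (lv p.1)) (c (z (lv p.1)) (z' (lv p.1)))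
      p.2.1 p.2.2 q.2.1 q.2.2 else N
  let rk : ℕ × Fin 4 × V → Lex (ℕ × Lex (ℕ × V)) := fun p =>
    toLex (p.1, toLex (pos (up p.1) p.2.1, p.2.2))
  have hrk : Function.Injective rk := by
    rintro ⟨i, a, x⟩ ⟨j, b, y⟩ hxy
    have h1 : i = j := (Prod.ext_iff.mp hxy).1
    subst h1
    have h2 : toLex (pos (up i) a, x) = toLex (pos (up i) b, y) := (Prod.ext_iff.mp hxy).2
    have h3 : pos (up i) a = pos (up i) b := (Prod.ext_iff.mp h2).1
    have h4 : x = y := (Prod.ext_iff.mp h2).2
    rw [h4, pos_inj _ _ _ h3]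
  let e : Fin 6 × Fin 5 → ℕ × Fin 4 × V := fun s =>
    (κ s.1, ![0, 0, 1, 2, 3] s.2, ![w s.1, w' s.1, a₀, a₀, a₀] s.2)
  let Q : Set (ℕ × Fin 4 × V) := Set.range e
  have hQ : Q.Finite := Set.finite_range e
  obtain ⟨f, hf1, hf2, hf3⟩ := cfgOn hC hS rk hrk Q hQ D
    (by
      intro x y
      by_cases hx : x.1 = y.1
      · show (if x.1 = y.1 then _ else N) = (if y.1 = x.1 then _ else N)
        rw [if_pos hx, if_pos hx.symm, hx]
        exact lvl_symm c hsym N _ _ _ _ _ _ _
      · show (if x.1 = y.1 then _ else N) = (if y.1 = x.1 then _ else N)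
        rw [if_neg hx, if_neg (fun h => hx h.symm)])
    (by
      intro x
      show (if x.1 = x.1 then _ else N) = N
      rw [if_pos rfl]
      exact lvl_diag c N hdiag _ _ _ _ _)
    (by
      intro K hKQ hK
      have hlev : ∀ p ∈ K, ∀ q ∈ K, p.1 = q.1 := by
        intro p hp q hq
        by_contra hne
        exact hK p hp q hq (fun h => hne (by rw [h])) (if_neg hne)
      by_cases hold : ∃ p ∈ K, ∃ q ∈ K, p ≠ q ∧ p.2.1 = 0 ∧ q.2.1 = 0
      · obtain ⟨p, hp, q, hq, hpq, hp0, hq0⟩ := hold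
        have hall : ∀ r ∈ K, r.2.1 = 0 := by
          intro r hr
          by_contra hr0
          have key : ∀ q ∈ K, q.2.1 = 0 →
              lvl c N (w (lv r.1)) (w' (lv r.1)) (c (z (lv r.1)) (z' (lv r.1)))
                r.2.1 r.2.2 0 q.2.2 ≠ N := by
            intro q hq hq0
            have h1 : r ≠ q := fun h => hr0 (by rw [h]; exact hq0)
            have h2 := hK r hr q hq h1
            have h3 : D r q = lvl c N (w (lv r.1)) (w' (lv r.1)) (c (z (lv r.1)) (z' (lv r.1)))
                r.2.1 r.2.2 0 q.2.2 := by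
              show (if r.1 = q.1 then _ else N) = _
              rw [if_pos (hlev r hr q hq), hq0]
            rw [← h3]
            exact h2
          have h4 := lvl_old c N _ _ _ r.2.1 r.2.2 p.2.2 q.2.2 hr0 (key p hp hp0) (key q hq hq0)
          exact hpq (Prod.ext (hlev p hp q hq) (Prod.ext (hp0.trans hq0.symm) h4))
        refine ⟨fun p => p.2.2, ?_, ?_⟩
        · intro x hx y hy hxy
          exact Prod.ext (hlev x hx y hy) (Prod.ext ((hall x hx).trans (hall y hy).symm) hxy)
        · intro x hx y hy _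
          show c x.2.2 y.2.2 = (if x.1 = y.1 then lvl c N (w (lv x.1)) (w' (lv x.1))
            (c (z (lv x.1)) (z' (lv x.1))) x.2.1 x.2.2 y.2.1 y.2.2 else N)
          rw [if_pos (hlev x hx y hy), hall x hx, hall y hy]
          rfl
      · push Not at hold
        have hex : ∃ l, ∀ p ∈ K, p.1 = κ l := by
          rcases K.eq_empty_or_nonempty with h | ⟨p, hp⟩
          · exact ⟨l₀, fun p hp => absurd hp (by rw [h]; exact Set.notMem_empty p)⟩
          · obtain ⟨s, hs⟩ := hKQ hp
            exact ⟨s.1, fun q hq => by rw [hlev q hq p hp, ← hs]⟩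
        obtain ⟨l, hl⟩ := hex
        have hed : ∀ x ∈ K, ∀ y ∈ K, x ≠ y →
            side x.2.1 ≠ side y.2.1 ∧ D x y = c (z l) (z' l) := by
          intro x hx y hy hxy
          have hD : D x y = lvl c N (w (lv x.1)) (w' (lv x.1)) (c (z (lv x.1)) (z' (lv x.1)))
            x.2.1 x.2.2 y.2.1 y.2.2 := if_pos (hlev x hx y hy)
          have hne := hK x hx y hy hxy
          rw [hD] at hne
          obtain ⟨h1, h2⟩ := lvl_side _ _ _ _ _ _ _ _ _ hne
            (fun h => hold x hx y hy hxy h.1 h.2)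
          refine ⟨h1, ?_⟩
          rw [hD, h2, hl x hx, ez, ez']
        have hzl : ∀ x ∈ K, ∀ y ∈ K, x ≠ y → z l ≠ z' l := by
          intro x hx y hy hxy h
          apply hK x hx y hy hxy
          rw [(hed x hx y hy hxy).2, h, hdiag]
        refine ⟨fun p => if side p.2.1 = true then z' l else z l, ?_, ?_⟩
        · intro x hx y hy hxy
          by_contra hne
          have h1 := (hed x hx y hy hne).1
          have h2 := hzl x hx y hy hne
          have hxy' : (if side x.2.1 = true then z' l else z l) =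
            (if side y.2.1 = true then z' l else z l) := hxy
          cases hsx : side x.2.1 <;> cases hsy : side y.2.1 <;> rw [hsx, hsy] at h1 hxy'
          · exact h1 rfl
          · rw [if_neg (by decide), if_pos rfl] at hxy'
            exact h2 hxy'
          · rw [if_pos rfl, if_neg (by decide)] at hxy'
            exact h2 hxy'.symm
          · exact h1 rfl
        · intro x hx y hy hne
          have h1 := hed x hx y hy hne
          rw [h1.2]
          show c (if side x.2.1 = true then z' l else z l)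
            (if side y.2.1 = true then z' l else z l) = c (z l) (z' l)
          cases hsx : side x.2.1 <;> cases hsy : side y.2.1
          · exact absurd (hsx.trans hsy.symm) h1.1
          · rw [if_neg (by decide), if_pos rfl]
          · rw [if_pos rfl, if_neg (by decide), hsym]
          · exact absurd (hsx.trans hsy.symm) h1.1)
  -- the blocks
  have mQ : ∀ l (s : Fin 5), e (l, s) ∈ Q := fun l s => ⟨(l, s), rfl⟩
  let S : Fin 6 → Prop := fun l => z l ≠ z' l
  have hS0 : ∀ l, ¬ S l → w l = w' l := by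
    intro l hl
    refine hww l (fun hk => hl₀ ?_)
    have h1 : z l = z' l := not_not.mp hl
    rw [← (hz.eq _ _ hk).1, ← (hz.eq _ _ hk).2, h1]
  have hSκ : ∀ l l', κ l = κ l' → (S l ↔ S l') := by
    intro l l' hk
    show z l ≠ z' l ↔ z l' ≠ z' l'
    rw [(hz.eq _ _ hk).1, (hz.eq _ _ hk).2]
  -- the block with the name s
  let bl : Fin 5 → Fin 6 → ℕ × Fin 4 × V := fun s l => if S l then e (l, s) else e (l, 0)
  have blS : ∀ s l, S l → bl s l = e (l, s) := fun s l hl => if_pos hl
  have blN : ∀ s l, ¬ S l → bl s l = e (l, 0) := fun s l hl => if_neg hl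
  have bl1 : ∀ s l, (bl s l).1 = κ l := by
    intro s l
    by_cases hl : S l
    · rw [blS s l hl]
    · rw [blN s l hl]
  have blQ : ∀ s l, bl s l ∈ Q := by
    intro s l
    by_cases hl : S l
    · rw [blS s l hl]
      exact mQ l s
    · rw [blN s l hl]
      exact mQ l 0
  have bl0 : ∀ l, bl 0 l = (κ l, 0, w l) := by
    intro l
    by_cases hl : S l
    · rw [blS 0 l hl]
      rfl
    · rw [blN 0 l hl]
      rfl
  have bl0' : ∀ l, bl 1 l = (κ l, 0, w' l) := by
    intro l
    by_cases hl : S l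
    · rw [blS 1 l hl]
      rfl
    · rw [blN 1 l hl, ← hS0 l hl]
      rfl
  have blκ : ∀ s l l', κ l = κ l' → bl s l = bl s l' := by
    intro s l l' hk
    have he : ∀ s, e (l, s) = e (l', s) := by
      intro s
      show (κ l, ![0, 0, 1, 2, 3] s, ![w l, w' l, a₀, a₀, a₀] s) =
        (κ l', ![0, 0, 1, 2, 3] s, ![w l', w' l', a₀, a₀, a₀] s)
      rw [hk, (hw.eq _ _ hk).1, (hw.eq _ _ hk).2]
    by_cases hl : S l
    · rw [blS s l hl, blS s l' ((hSκ l l' hk).mp hl), he]
    · rw [blN s l hl, blN s l' (fun h => hl ((hSκ l l' hk).mpr h)), he]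
  have blZ : ∀ s s', ZA c N κ (fun l => f (bl s l)) (fun l => f (bl s' l)) := by
    intro s s'
    have hlt : ∀ s s' l l', κ l < κ l' → f (bl s l) < f (bl s' l') := by
      intro s s' l l' hk
      rw [hf1 _ (blQ s l) _ (blQ s' l')]
      refine Prod.Lex.toLex_lt_toLex.mpr (Or.inl ?_)
      show (bl s l).1 < (bl s' l').1
      rw [bl1, bl1]
      exact hk
    have hfr : ∀ s s' l l', κ l < κ l' → c (f (bl s l)) (f (bl s' l')) = N := by
      intro s s' l l' hk
      rw [hf3 _ (blQ s l) _ (blQ s' l')]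
      refine if_neg ?_
      rw [bl1, bl1]
      exact ne_of_lt hk
    refine ⟨?_, ?_, ?_⟩
    · intro l l' hk
      show f (bl s l) = f (bl s l') ∧ f (bl s' l) = f (bl s' l')
      rw [blκ s l l' hk, blκ s' l l' hk]
      exact ⟨rfl, rfl⟩
    · intro l l' hk
      exact ⟨hlt _ _ _ _ hk, hlt _ _ _ _ hk, hlt _ _ _ _ hk, hlt _ _ _ _ hk⟩
    · intro l l' hk
      exact ⟨hfr _ _ _ _ hk, hfr _ _ _ _ hk, hfr _ _ _ _ hk, hfr _ _ _ _ hk⟩
  -- the rank inside a level
  have hrl : ∀ l (a b : Fin 4) (x y : V), pos (up (κ l)) a < pos (up (κ l)) b →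
      rk (κ l, a, x) < rk (κ l, b, y) := by
    intro l a b x y hab
    exact Prod.Lex.toLex_lt_toLex.mpr (Or.inr ⟨rfl, Prod.Lex.toLex_lt_toLex.mpr (Or.inl hab)⟩)
  -- the arrows
  have arrow : ∀ s s' : Fin 5, (∀ P : Prop, ∀ hP : Decidable P, P →
      pos P (![0, 0, 1, 2, 3] s) < pos P (![0, 0, 1, 2, 3] s')) →
      (∀ P : Prop, ∀ hP : Decidable P, ¬ P →
        pos P (![0, 0, 1, 2, 3] s') < pos P (![0, 0, 1, 2, 3] s)) →
      (∀ l, D (e (l, s)) (e (l, s')) = c (z l) (z' l)) →
      (∀ l, ¬ S l → bl s l = bl s' l) →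
      h (fun l => f (bl s l)) (fun l => f (bl s' l)) = none := by
    intro s s' h1 h2 h3 h4
    rw [← hzz]
    have hzlt : ∀ l, ¬ S l → z l = z' l := fun l hl => not_not.mp hl
    have hup : ∀ l, z l < z' l → f (bl s l) < f (bl s' l) := by
      intro l hl
      have hSl : S l := ne_of_lt hl
      rw [hf1 _ (blQ s l) _ (blQ s' l), blS s l hSl, blS s' l hSl]
      refine hrl l _ _ _ _ (h1 _ _ ?_)
      show z (lv (κ l)) < z' (lv (κ l))
      rw [ez, ez']
      exact hl
    have hdn : ∀ l, z' l < z l → f (bl s' l) < f (bl s l) := by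
      intro l hl
      have hSl : S l := ne_of_gt hl
      rw [hf1 _ (blQ s' l) _ (blQ s l), blS s l hSl, blS s' l hSl]
      refine hrl l _ _ _ _ (h2 _ _ ?_)
      show ¬ z (lv (κ l)) < z' (lv (κ l))
      rw [ez, ez']
      exact not_lt_of_gt hl
    have heq : ∀ l, z l = z' l → f (bl s l) = f (bl s' l) := by
      intro l hl
      rw [h4 l (not_not.mpr hl)]
    refine (hT _ _ _ _ (same_of_ZA hsym hdiag hz (blZ s s') ?_ ?_ ?_)).symm
    · intro l
      refine ⟨hup l, fun hl => ?_⟩
      rcases lt_trichotomy (z l) (z' l) with h' | h' | h'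
      · exact h'
      · exact absurd (heq l h') (ne_of_lt hl)
      · exact absurd (hdn l h') (not_lt_of_gt hl)
    · intro l
      refine ⟨hdn l, fun hl => ?_⟩
      rcases lt_trichotomy (z l) (z' l) with h' | h' | h'
      · exact absurd (hup l h') (not_lt_of_gt hl)
      · exact absurd (heq l h') (ne_of_gt hl)
      · exact h'
    · intro l
      by_cases hSl : S l
      · rw [hf3 _ (blQ s l) _ (blQ s' l), blS s l hSl, blS s' l hSl, h3 l]
      · rw [heq l (hzlt l hSl), hzlt l hSl, hdiag, hdiag]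
  have posP : ∀ (P : Prop) (hP : Decidable P) (a : Fin 4), P → pos P a = ![1, 2, 3, 0] a :=
    fun P hP a h => if_pos h
  have posN : ∀ (P : Prop) (hP : Decidable P) (a : Fin 4), ¬ P → pos P a = ![2, 0, 1, 3] a :=
    fun P hP a h => if_neg h
  have hDe : ∀ l (s s' : Fin 5), D (e (l, s)) (e (l, s')) = lvl c N (w l) (w' l) (c (z l) (z' l))
      (![0, 0, 1, 2, 3] s) (![w l, w' l, a₀, a₀, a₀] s) (![0, 0, 1, 2, 3] s')
      (![w l, w' l, a₀, a₀, a₀] s') := by
    intro l s s'
    show (if κ l = κ l then lvl c N (w (lv (κ l))) (w' (lv (κ l)))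
      (c (z (lv (κ l))) (z' (lv (κ l)))) _ _ _ _ else N) = _
    rw [if_pos rfl, ew, ew', ez, ez']
  have a02 := arrow 0 2 (by intro P hP h'; rw [posP P hP _ h', posP P hP _ h']; decide)
    (by intro P hP h'; rw [posN P hP _ h', posN P hP _ h']; decide)
    (by intro l; rw [hDe]; exact if_pos rfl)
    (by intro l hl; rw [blN _ l hl, blN _ l hl])
  have a42 := arrow 4 2 (by intro P hP h'; rw [posP P hP _ h', posP P hP _ h']; decide)
    (by intro P hP h'; rw [posN P hP _ h', posN P hP _ h']; decide)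
    (by intro l; rw [hDe]; rfl)
    (by intro l hl; rw [blN _ l hl, blN _ l hl])
  have a43 := arrow 4 3 (by intro P hP h'; rw [posP P hP _ h', posP P hP _ h']; decide)
    (by intro P hP h'; rw [posN P hP _ h', posN P hP _ h']; decide)
    (by intro l; rw [hDe]; rfl)
    (by intro l hl; rw [blN _ l hl, blN _ l hl])
  have a13 := arrow 1 3 (by intro P hP h'; rw [posP P hP _ h', posP P hP _ h']; decide)
    (by intro P hP h'; rw [posN P hP _ h', posN P hP _ h']; decide)
    (by intro l; rw [hDe]; exact if_pos rfl)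
    (by intro l hl; rw [blN _ l hl, blN _ l hl])
  -- 0 - 2 - 4 - 3 - 1
  have b04 := none_trans hE hS hh (none_symm hE hS hh a02) (none_symm hE hS hh a42)
  have b03 := none_trans hE hS hh (none_symm hE hS hh b04) a43
  have b01 := none_trans hE hS hh (none_symm hE hS hh b03) (none_symm hE hS hh a13)
  rw [← b01]
  have hr0 : ∀ l (x y : V), (rk (κ l, 0, x) < rk (κ l, 0, y) ↔ x < y) := by
    intro l x y
    show (toLex (κ l, toLex (pos (up (κ l)) 0, x)) : Lex (ℕ × Lex (ℕ × V))) <
      toLex (κ l, toLex (pos (up (κ l)) 0, y)) ↔ x < y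
    rw [Prod.Lex.toLex_lt_toLex]
    constructor
    · rintro (h' | ⟨_, h'⟩)
      · exact absurd h' (lt_irrefl _)
      · rcases Prod.Lex.toLex_lt_toLex.mp h' with h'' | ⟨_, h''⟩
        · exact absurd h'' (lt_irrefl _)
        · exact h''
    · intro h'
      exact Or.inr ⟨rfl, Prod.Lex.toLex_lt_toLex.mpr (Or.inr ⟨rfl, h'⟩)⟩
  refine hT _ _ _ _ (same_of_ZA hsym hdiag hw (blZ 0 1) ?_ ?_ ?_)
  · intro l
    rw [hf1 _ (blQ 0 l) _ (blQ 1 l), bl0, bl0', hr0]
  · intro l
    rw [hf1 _ (blQ 1 l) _ (blQ 0 l), bl0, bl0', hr0]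
  · intro l
    rw [hf3 _ (blQ 0 l) _ (blQ 1 l), bl0, bl0']
    show c (w l) (w' l) = (if κ l = κ l then c (w l) (w' l) else N)
    rw [if_pos rfl]

end Pool.Agent.H91.EQ
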