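import Pool.Agent.H44.EQ.Targets

/-!
# Blocks with different determining entries have different values
-/

set_option autoImplicit false

namespace Pool.Agent.H91.EQ

open Pool.Agent.H44.EQ Pool.Agent.H53.GC Pool.Agent.H53.NR Pool.Agent.H68.BP Pool.Agent.H58.SF

/-- Configurations on a finite subset of a type with an injective rank. -/
theorem cfgOn (hC : T_CFG) {σ : Sig} {V X : Type} [LinearOrder V] {𝔸 : Str σ V} {M : ℕ}
    {c : V → V → X} {N : X} (hE : SetE 𝔸 M c N) {T R : Type} [LinearOrder R] (rk : T → R)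
    (hrk : Function.Injective rk) (Q : Set T) (hQ : Q.Finite) (D : T → T → X)
    (hs : ∀ x y, D x y = D y x) (hd : ∀ x, D x x = N)
    (hK : ∀ K : Set T, K ⊆ Q → (∀ x ∈ K, ∀ y ∈ K, x ≠ y → D x y ≠ N) →
      ∃ u : T → V, (∀ x ∈ K, ∀ y ∈ K, u x = u y → x = y) ∧
        ∀ x ∈ K, ∀ y ∈ K, x ≠ y → c (u x) (u y) = D x y) :
    ∃ f : T → V, (∀ x ∈ Q, ∀ y ∈ Q, (f x < f y ↔ rk x < rk y)) ∧
      (∀ x ∈ Q, ∀ y ∈ Q, f x = f y → x = y) ∧ ∀ x ∈ Q, ∀ y ∈ Q, c (f x) (f y) = D x y := by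
  classical
  have : Finite Q := hQ
  obtain ⟨f, hf1, hf2⟩ := hC σ V X 𝔸 M c N hE Q R (fun q => rk q.1) (fun q => D q.1 ∘ (·.1))
    (fun a b h => Subtype.ext (hrk h)) (fun x y => hs x.1 y.1) (fun x => hd x.1)
    (by
      intro K hK'
      obtain ⟨u, hu1, hu2⟩ := hK (Subtype.val '' K) (by rintro _ ⟨a, _, rfl⟩; exact a.2)
        (by
          rintro _ ⟨a, ha, rfl⟩ _ ⟨b, hb, rfl⟩ hab
          exact hK' a ha b hb (fun h => hab (by rw [h])))
      refine ⟨fun q => u q.1, ?_, ?_⟩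
      · intro x hx y hy hxy
        exact Subtype.ext (hu1 _ ⟨x, hx, rfl⟩ _ ⟨y, hy, rfl⟩ hxy)
      · intro x hx y hy hxy
        exact hu2 _ ⟨x, hx, rfl⟩ _ ⟨y, hy, rfl⟩ (fun h => hxy (Subtype.ext h)))
  obtain ⟨a₀⟩ := hE.ne
  have key : ∀ x ∈ Q, ∀ y ∈ Q, rk x < rk y →
      (if h : x ∈ Q then f ⟨x, h⟩ else a₀) < (if h : y ∈ Q then f ⟨y, h⟩ else a₀) := by
    intro x hx y hy hxy
    rw [dif_pos hx, dif_pos hy]
    exact hf1 ⟨x, hx⟩ ⟨y, hy⟩ hxy
  have key2 : ∀ x ∈ Q, ∀ y ∈ Q,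
      (if h : x ∈ Q then f ⟨x, h⟩ else a₀) = (if h : y ∈ Q then f ⟨y, h⟩ else a₀) → x = y := by
    intro x hx y hy hxy
    rcases lt_trichotomy (rk x) (rk y) with h | h | h
    · exact absurd hxy (ne_of_lt (key x hx y hy h))
    · exact hrk h
    · exact absurd hxy (ne_of_gt (key y hy x hx h))
  refine ⟨fun x => if h : x ∈ Q then f ⟨x, h⟩ else a₀, ?_, key2, ?_⟩
  · intro x hx y hy
    constructor
    · intro h
      rcases lt_trichotomy (rk x) (rk y) with h' | h' | h'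
      · exact h'
      · rw [hrk h'] at h
        exact absurd h (lt_irrefl _)
      · exact absurd h (not_lt_of_gt (key y hy x hx h'))
    · exact key x hx y hy
  · intro x hx y hy
    show c (if h : x ∈ Q then f ⟨x, h⟩ else a₀) (if h : y ∈ Q then f ⟨y, h⟩ else a₀) = D x y
    rw [dif_pos hx, dif_pos hy]
    exact hf2 ⟨x, hx⟩ ⟨y, hy⟩

/-- `h` is determined by the types of the pairs. -/
theorem none_trans {σ : Sig} {V X : Type} [LinearOrder V] {𝔸 : Str σ V} {M : ℕ}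
    {c : V → V → X} {N : X} (hE : T_EQV) (hS : SetE 𝔸 M c N) {I : Type}
    {h : (I → V) → (I → V) → Option X} (hh : PolMap 𝔸 M c I h) {a b d : I → V}
    (h1 : h a b = none) (h2 : h a d = none) : h b d = none := by
  rw [← (hE σ V X 𝔸 M c N hS I h hh).2 a b d h1, h2]

/-- symmetry -/
theorem none_symm {σ : Sig} {V X : Type} [LinearOrder V] {𝔸 : Str σ V} {M : ℕ}
    {c : V → V → X} {N : X} (hE : T_EQV) (hS : SetE 𝔸 M c N) {I : Type}
    {h : (I → V) → (I → V) → Option X} (hh : PolMap 𝔸 M c I h) {a b : I → V}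
    (h1 : h a b = none) : h b a = none := by
  rw [← (hE σ V X 𝔸 M c N hS I h hh).1 a b, h1]

open Classical in
/-- **Row SEP.** -/
theorem pf_SEP (hC : T_CFG) (hE : T_EQV) (hN : T_NC) : T_SEP := by
  intro σ V X _ 𝔸 M c N hS hcon h hh hT κ κ' J J' hJ hJ' hJκ hJκ' v v' hv hv' hne hvv
  let D : V × ℕ → V × ℕ → X := fun p q => if p.2 = 0 ∧ q.2 = 0 then c p.1 q.1 else N
  have hD0 : ∀ x y : V, D (x, 0) (y, 0) = c x y := fun x y => if_pos ⟨rfl, rfl⟩
  have hD1 : ∀ p q : V × ℕ, p.2 ≠ 0 → D p q = N := fun p q hp => if_neg (fun h => hp h.1)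
  have hD2 : ∀ p q : V × ℕ, q.2 ≠ 0 → D p q = N := fun p q hq => if_neg (fun h => hq h.2)
  let e : (Fin 6 ⊕ Fin 6) × Fin 3 → V × ℕ := fun s => (Sum.elim v v' s.1, s.2.val)
  let Q : Set (V × ℕ) := Set.range e
  have hQ : Q.Finite := Set.finite_range e
  obtain ⟨f, hf1, hf2, hf3⟩ := cfgOn hC hS (T := V × ℕ) (R := Lex (V × ℕ)) toLex
    (fun a b h => h) Q hQ D
    (by
      intro x y
      by_cases hx : x.2 = 0 ∧ y.2 = 0
      · show (if x.2 = 0 ∧ y.2 = 0 then c x.1 y.1 else N) =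
          (if y.2 = 0 ∧ x.2 = 0 then c y.1 x.1 else N)
        rw [if_pos hx, if_pos ⟨hx.2, hx.1⟩, hS.sym]
      · show (if x.2 = 0 ∧ y.2 = 0 then c x.1 y.1 else N) =
          (if y.2 = 0 ∧ x.2 = 0 then c y.1 x.1 else N)
        rw [if_neg hx, if_neg (fun h => hx ⟨h.2, h.1⟩)])
    (by
      intro x
      show (if x.2 = 0 ∧ x.2 = 0 then c x.1 x.1 else N) = N
      rw [hS.diag, ite_self])
    (by
      intro K _ hK
      by_cases h0 : ∀ x ∈ K, x.2 = 0
      · refine ⟨fun x => x.1, ?_, ?_⟩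
        · intro x hx y hy hxy
          exact Prod.ext hxy (by rw [h0 x hx, h0 y hy])
        · intro x hx y hy _
          show c x.1 y.1 = (if x.2 = 0 ∧ y.2 = 0 then c x.1 y.1 else N)
          rw [if_pos ⟨h0 x hx, h0 y hy⟩]
      · push Not at h0
        obtain ⟨p, hp, hp0⟩ := h0
        have hall : ∀ x ∈ K, x = p := by
          intro x hx
          by_contra hxp
          exact hK x hx p hp hxp (hD2 x p hp0)
        refine ⟨fun x => x.1, ?_, ?_⟩
        · intro x hx y hy _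
          rw [hall x hx, hall y hy]
        · intro x hx y hy hxy
          exact absurd ((hall x hx).trans (hall y hy).symm) hxy)
  -- membership
  have mv : ∀ (l : Fin 6) (a : ℕ), a < 3 → (v l, a) ∈ Q := fun l a ha =>
    ⟨(Sum.inl l, ⟨a, ha⟩), rfl⟩
  have mv' : ∀ (l : Fin 6) (a : ℕ), a < 3 → (v' l, a) ∈ Q := fun l a ha =>
    ⟨(Sum.inr l, ⟨a, ha⟩), rfl⟩
  have hlt : ∀ (x y : V) (a b : ℕ), x < y → (toLex (x, a) : Lex (V × ℕ)) < toLex (y, b) := by
    intro x y a b hxy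
    exact Prod.Lex.toLex_lt_toLex.mpr (Or.inl hxy)
  -- copies
  have hcopy : h (fun l => f (v l, 0)) (fun l => f (v' l, 0)) = none := by
    rw [← hvv]
    refine (hT _ _ _ _ ?_).symm
    intro i j
    have me : ∀ i : Fin 6 ⊕ Fin 6, (Sum.elim v v' i, 0) ∈ Q := fun i => ⟨(i, 0), rfl⟩
    have hel : ∀ i : Fin 6 ⊕ Fin 6, Sum.elim (fun l => f (v l, 0)) (fun l => f (v' l, 0)) i =
        f (Sum.elim v v' i, 0) := by
      rintro (i | i) <;> rfl
    rw [hel i, hel j]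
    constructor
    · rw [hf1 _ (me i) _ (me j), Prod.Lex.toLex_lt_toLex]
      constructor
      · intro h; exact Or.inl h
      · rintro (h | ⟨_, h⟩)
        · exact h
        · exact absurd h (lt_irrefl _)
    · intro _
      rw [hf3 _ (me i) _ (me j), hD0]
  -- the general comparison
  have gen : ∀ (κ : Fin 6 → ℕ) (J : Set (Fin 6)) (v : Fin 6 → V) (b : ℕ), JSet c N h κ J →
      (∀ l l', κ l = κ l' → (l ∈ J ↔ l' ∈ J)) → ZA c N κ v v → (∀ l, (v l, 0) ∈ Q) →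
      (∀ l, (v l, b) ∈ Q) →
      h (fun l => f (v l, 0)) (fun l => if l ∈ J then f (v l, 0) else f (v l, b)) = none := by
    intro κ J v b hJ hJκ hv m0 mb
    have hw : ∀ l, ∃ a, (v l, a) ∈ Q ∧ (if l ∈ J then f (v l, 0) else f (v l, b)) = f (v l, a) := by
      intro l
      by_cases hl : l ∈ J
      · exact ⟨0, m0 l, if_pos hl⟩
      · exact ⟨b, mb l, if_neg hl⟩
    have hfr : ∀ l l' a a', κ l < κ l' → D (v l, a) (v l', a') = N := by
      intro l l' a a' hll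
      show (if a = 0 ∧ a' = 0 then c (v l) (v l') else N) = N
      rw [(hv.free l l' hll).1, ite_self]
    refine (hJ _ _ ⟨?_, ?_, ?_⟩).mpr ?_
    · intro l l' hll
      have hvl := (hv.eq l l' hll).1
      refine ⟨by simp only [hvl], ?_⟩
      show (if l ∈ J then f (v l, 0) else f (v l, b)) = (if l' ∈ J then f (v l', 0) else f (v l', b))
      rw [hvl]
      by_cases hl : l ∈ J
      · rw [if_pos hl, if_pos ((hJκ l l' hll).mp hl)]
      · rw [if_neg hl, if_neg (fun h => hl ((hJκ l l' hll).mpr h))]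
    · intro l l' hll
      obtain ⟨a, ha, ea⟩ := hw l
      obtain ⟨a', ha', ea'⟩ := hw l'
      have hvl := (hv.lt l l' hll).1
      show f (v l, 0) < f (v l', 0) ∧ f (v l, 0) < (if l' ∈ J then f (v l', 0) else f (v l', b)) ∧
        (if l ∈ J then f (v l, 0) else f (v l, b)) < f (v l', 0) ∧
        (if l ∈ J then f (v l, 0) else f (v l, b)) < (if l' ∈ J then f (v l', 0) else f (v l', b))
      rw [ea, ea']
      exact ⟨(hf1 _ (m0 l) _ (m0 l')).mpr (hlt _ _ _ _ hvl),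
        (hf1 _ (m0 l) _ ha').mpr (hlt _ _ _ _ hvl),
        (hf1 _ ha _ (m0 l')).mpr (hlt _ _ _ _ hvl), (hf1 _ ha _ ha').mpr (hlt _ _ _ _ hvl)⟩
    · intro l l' hll
      obtain ⟨a, ha, ea⟩ := hw l
      obtain ⟨a', ha', ea'⟩ := hw l'
      show c (f (v l, 0)) (f (v l', 0)) = N ∧
        c (f (v l, 0)) (if l' ∈ J then f (v l', 0) else f (v l', b)) = N ∧
        c (if l ∈ J then f (v l, 0) else f (v l, b)) (f (v l', 0)) = N ∧
        c (if l ∈ J then f (v l, 0) else f (v l, b))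
          (if l' ∈ J then f (v l', 0) else f (v l', b)) = N
      rw [ea, ea', hf3 _ (m0 l) _ (m0 l'), hf3 _ (m0 l) _ ha', hf3 _ ha _ (m0 l'),
        hf3 _ ha _ ha']
      exact ⟨hfr _ _ _ _ hll, hfr _ _ _ _ hll, hfr _ _ _ _ hll, hfr _ _ _ _ hll⟩
    · intro l hl
      show f (v l, 0) = (if l ∈ J then f (v l, 0) else f (v l, b))
      rw [if_pos hl]
  have g1 := gen κ J v 1 hJ hJκ hv (fun l => mv l 0 (by omega)) (fun l => mv l 1 (by omega))
  have g2 := gen κ' J' v' 2 hJ' hJκ' hv' (fun l => mv' l 0 (by omega))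
    (fun l => mv' l 2 (by omega))
  -- h w w' = none
  have g3 := none_trans hE hS hh (none_trans hE hS hh hcopy g1) g2
  refine hN σ V X 𝔸 M c N hS hcon h hh hT _ _ ?_ g3
  intro l l'
  show (if l ∈ J then f (v l, 0) else f (v l, 1)) ≠
    (if l' ∈ J' then f (v' l', 0) else f (v' l', 2))
  intro hEq
  by_cases hl : l ∈ J
  · by_cases hl' : l' ∈ J'
    · rw [if_pos hl, if_pos hl'] at hEq
      exact hne l hl l' hl' (Prod.ext_iff.mp
        (hf2 _ (mv l 0 (by omega)) _ (mv' l' 0 (by omega)) hEq)).1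
    · rw [if_pos hl, if_neg hl'] at hEq
      exact absurd (Prod.ext_iff.mp
        (hf2 _ (mv l 0 (by omega)) _ (mv' l' 2 (by omega)) hEq)).2 (by simp)
  · by_cases hl' : l' ∈ J'
    · rw [if_neg hl, if_pos hl'] at hEq
      exact absurd (Prod.ext_iff.mp
        (hf2 _ (mv l 1 (by omega)) _ (mv' l' 0 (by omega)) hEq)).2 (by simp)
    · rw [if_neg hl, if_neg hl'] at hEq
      exact absurd (Prod.ext_iff.mp
        (hf2 _ (mv l 1 (by omega)) _ (mv' l' 2 (by omega)) hEq)).2 (by simp)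

end Pool.Agent.H91.EQ
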